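import Pool.Agent.helper84.QI.Spec

/-!
# Project QI (MP_fd6eef_al), row FCF
-/

set_option autoImplicit false

namespace Pool.Agent.QI

theorem FCF (hNIN : NIN_stmt) (hQIV : QIV_stmt) : FCF_stmt := by
  intro G _ a b h y hy
  by_contra hinf
  have hK : (Subgroup.normalClosure ({y} : Set G)).FiniteIndex :=
    hNIN G a b h _ Subgroup.normalClosure_normal hinf
  have hC : (Subgroup.centralizer ({y} : Set G)).normalCore.FiniteIndex := inferInstance
  set K := Subgroup.normalClosure ({y} : Set G) with hKdef
  set C := (Subgroup.centralizer ({y} : Set G)).normalCore with hCdef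
  have hKC : K ≤ Subgroup.centralizer (C : Set G) := by
    haveI : (Subgroup.centralizer (C : Set G)).Normal := inferInstance
    refine Subgroup.normalClosure_le_normal ?_
    intro z hz
    rw [Set.mem_singleton_iff] at hz
    subst hz
    rw [SetLike.mem_coe, Subgroup.mem_centralizer_iff]
    intro c hc
    have h1 : c ∈ Subgroup.centralizer ({z} : Set G) := Subgroup.normalCore_le _ hc
    rw [Subgroup.mem_centralizer_iff] at h1
    exact (h1 z rfl).symm
  have hA : (K ⊓ C).FiniteIndex := inferInstance
  refine hQIV G a b h (K ⊓ C) hA fun x hx z hz => ?_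
  have h1 := Subgroup.mem_centralizer_iff.1 (hKC hx.1) z hz.2
  exact h1.symm

end Pool.Agent.QI
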